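import Mathlib
import Pool.Agent.U581.LB.Stm

/-! Project LB, package FOUR: characteristic function and fourth moment of a trigonometric polynomial with
independent blocks. -/

set_option autoImplicit false

namespace Pool.Agent.U603.LB

open Real MeasureTheory ProbabilityTheory Pool.Agent.U581.LB

theorem ib {Ω : Type*} [MeasurableSpace Ω] (P : Measure Ω) [IsProbabilityMeasure P] (f : Ω → ℝ)
    (hf : Measurable f) (B : ℝ) (hB : ∀ ω, |f ω| ≤ B) : Integrable f P :=
  Integrable.of_bound hf.aestronglyMeasurable B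
    (Filter.Eventually.of_forall fun ω => by rw [Real.norm_eq_abs]; exact hB ω)

/-- fourth moment of a sum of independent bounded centred variables -/
theorem sum_moments {Ω : Type*} [MeasurableSpace Ω] (P : Measure Ω) [IsProbabilityMeasure P]
    (X : ℕ → Ω → ℝ) (hm : ∀ i, Measurable (X i)) (hi : iIndepFun X P) (b v : ℕ → ℝ)
    (hb : ∀ i ω, |X i ω| ≤ b i) (S : Finset ℕ) (h0 : ∀ i ∈ S, ∫ ω, X i ω ∂P = 0)
    (h2 : ∀ i ∈ S, ∫ ω, X i ω ^ 2 ∂P = v i) :
    ∫ ω, (∑ i ∈ S, X i ω) ∂P = 0 ∧ ∫ ω, (∑ i ∈ S, X i ω) ^ 2 ∂P = ∑ i ∈ S, v i ∧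
    ∫ ω, (∑ i ∈ S, X i ω) ^ 4 ∂P ≤ 3 * (∑ i ∈ S, v i) ^ 2 + ∑ i ∈ S, b i ^ 2 * v i := by
  induction S using Finset.induction_on with
  | empty => simp
  | insert a S ha ih =>
    obtain ⟨i1, i2, i4⟩ := ih (fun i hi => h0 i (Finset.mem_insert_of_mem hi))
      (fun i hi => h2 i (Finset.mem_insert_of_mem hi))
    have z1 := h0 a (Finset.mem_insert_self _ _)
    have z2 := h2 a (Finset.mem_insert_self _ _)
    set A : Ω → ℝ := fun ω => ∑ i ∈ S, X i ω with hA
    have hAm : Measurable A := Finset.measurable_sum _ fun i _ => hm i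
    have hAb : ∀ ω, |A ω| ≤ ∑ i ∈ S, b i := fun ω =>
      (Finset.abs_sum_le_sum_abs _ _).trans (Finset.sum_le_sum fun i _ => hb i ω)
    have hind : IndepFun A (X a) P := by
      have h := hi.indepFun_finsetSum_of_notMem hm ha
      have e : (∑ j ∈ S, X j) = A := by
        funext ω
        simp only [Finset.sum_apply, hA]
      rwa [e] at h
    have hint : ∀ m n : ℕ, Integrable (fun ω => A ω ^ m * X a ω ^ n) P := by
      intro m n
      refine ib P _ ((hAm.pow_const m).mul ((hm a).pow_const n)) ((∑ i ∈ S, b i) ^ m * b a ^ n) fun ω => ?_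
      rw [abs_mul, abs_pow, abs_pow]
      have n1 : 0 ≤ |A ω| := abs_nonneg _
      have n2 : 0 ≤ |X a ω| := abs_nonneg _
      have := n1.trans (hAb ω)
      exact mul_le_mul (pow_le_pow_left₀ n1 (hAb ω) m) (pow_le_pow_left₀ n2 (hb a ω) n) (by positivity)
        (by positivity)
    have hprod : ∀ m n : ℕ, ∫ ω, A ω ^ m * X a ω ^ n ∂P = (∫ ω, A ω ^ m ∂P) * ∫ ω, X a ω ^ n ∂P := by
      intro m n
      have h := hind.comp (φ := fun x : ℝ => x ^ m) (ψ := fun x : ℝ => x ^ n) (by fun_prop) (by fun_prop)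
      exact h.integral_fun_mul_eq_mul_integral (hAm.pow_const m).aestronglyMeasurable
        ((hm a).pow_const n).aestronglyMeasurable
    have hins : ∀ ω, ∑ i ∈ insert a S, X i ω = A ω + X a ω := by
      intro ω
      rw [Finset.sum_insert ha, add_comm]
    have hs1 : ∀ f : ℕ → ℝ, ∑ i ∈ insert a S, f i = f a + ∑ i ∈ S, f i := fun f => Finset.sum_insert ha
    have hA1 : Integrable A P := by simpa using hint 1 0
    have hZ1 : Integrable (X a) P := by simpa using hint 0 1
    have i2' : ∫ ω, A ω ^ 2 ∂P = ∑ i ∈ S, v i := i2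
    simp only [hins]
    refine ⟨?_, ?_, ?_⟩
    · rw [integral_add hA1 hZ1, i1, z1, add_zero]
    · have e : (fun ω => (A ω + X a ω) ^ 2) =
          fun ω => A ω ^ 2 * X a ω ^ 0 + 2 * (A ω ^ 1 * X a ω ^ 1) + A ω ^ 0 * X a ω ^ 2 := by
        funext ω; ring
      have j1 : Integrable (fun ω => A ω ^ 2 * X a ω ^ 0 + 2 * (A ω ^ 1 * X a ω ^ 1)) P :=
        (hint 2 0).add ((hint 1 1).const_mul 2)
      rw [e, integral_add j1 (hint 0 2),
        integral_add (hint 2 0) ((hint 1 1).const_mul 2), integral_const_mul, hprod, hprod, hprod, hs1]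
      simp only [pow_zero, pow_one, integral_const, smul_eq_mul, mul_one, one_mul, i1, i2', z1, z2,
        probReal_univ]
      ring
    · have e : (fun ω => (A ω + X a ω) ^ 4) =
          fun ω => A ω ^ 4 * X a ω ^ 0 + 4 * (A ω ^ 3 * X a ω ^ 1) + 6 * (A ω ^ 2 * X a ω ^ 2) +
            4 * (A ω ^ 1 * X a ω ^ 3) + A ω ^ 0 * X a ω ^ 4 := by
        funext ω; ring
      have j1 : Integrable (fun ω => A ω ^ 4 * X a ω ^ 0 + 4 * (A ω ^ 3 * X a ω ^ 1)) P :=
        (hint 4 0).add ((hint 3 1).const_mul 4)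
      have j2 : Integrable (fun ω => A ω ^ 4 * X a ω ^ 0 + 4 * (A ω ^ 3 * X a ω ^ 1) +
          6 * (A ω ^ 2 * X a ω ^ 2)) P := j1.add ((hint 2 2).const_mul 6)
      have j3 : Integrable (fun ω => A ω ^ 4 * X a ω ^ 0 + 4 * (A ω ^ 3 * X a ω ^ 1) +
          6 * (A ω ^ 2 * X a ω ^ 2) + 4 * (A ω ^ 1 * X a ω ^ 3)) P := j2.add ((hint 1 3).const_mul 4)
      have e4 : ∫ ω, (A ω + X a ω) ^ 4 ∂P = (∫ ω, A ω ^ 4 ∂P) + 6 * ((∑ i ∈ S, v i) * v a) +
          ∫ ω, X a ω ^ 4 ∂P := by
        rw [e, integral_add j3 (hint 0 4), integral_add j2 ((hint 1 3).const_mul 4),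
          integral_add j1 ((hint 2 2).const_mul 6), integral_add (hint 4 0) ((hint 3 1).const_mul 4),
          integral_const_mul, integral_const_mul, integral_const_mul, hprod, hprod, hprod, hprod, hprod]
        simp only [pow_zero, pow_one, integral_const, smul_eq_mul, mul_one, one_mul, i1, i2', z1, z2,
          probReal_univ]
        ring
      have k4 : ∫ ω, X a ω ^ 4 ∂P ≤ b a ^ 2 * v a := by
        rw [← z2, ← integral_const_mul]
        refine integral_mono (by simpa using hint 0 4) ((by simpa using hint 0 2 :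
          Integrable (fun ω => X a ω ^ 2) P).const_mul _) fun ω => ?_
        have h1 : X a ω ^ 2 ≤ b a ^ 2 := by
          have := hb a ω
          rw [← sq_abs]
          exact pow_le_pow_left₀ (abs_nonneg _) this 2
        have h3 : 0 ≤ X a ω ^ 2 := sq_nonneg _
        show X a ω ^ 4 ≤ b a ^ 2 * X a ω ^ 2
        nlinarith
      rw [e4, hs1, hs1]
      nlinarith [sq_nonneg (v a)]

theorem yq_cont (c : ℕ → ℂ) (N q : ℕ) : Continuous (Yq c N q) := by
  unfold Yq
  refine continuous_finsetSum _ fun n _ => ?_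
  exact Complex.continuous_re.comp (by fun_prop)

theorem yq_le (c : ℕ → ℂ) (N q : ℕ) (x : ℝ) : |Yq c N q x| ≤ bq c N q :=
  (Finset.abs_sum_le_sum_abs _ _).trans (Finset.sum_le_sum fun n _ =>
    (Complex.abs_re_le_norm _).trans (by rw [norm_mul, Complex.norm_exp_ofReal_mul_I, mul_one]))

theorem int_e (c : ℂ) (k : ℤ) (hk : k ≠ 0) :
    ∫ x in (0 : ℝ)..1, (c * Complex.exp (((2 * π * (k * x) : ℝ) : ℂ) * Complex.I)).re = 0 := by
  have h1 : ∫ x in (0 : ℝ)..1, (c * Complex.exp (((2 * π * (k * x) : ℝ) : ℂ) * Complex.I)).re =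
      (∫ x in (0 : ℝ)..1, c * Complex.exp (((2 * π * (k * x) : ℝ) : ℂ) * Complex.I)).re := by
    have hc : Continuous fun x : ℝ => c * Complex.exp (((2 * π * (k * x) : ℝ) : ℂ) * Complex.I) := by
      fun_prop
    exact Complex.reCLM.intervalIntegral_comp_comm (hc.intervalIntegrable (μ := volume) 0 1)
  have h2 : ∀ x : ℝ, Complex.exp (((2 * π * (k * x) : ℝ) : ℂ) * Complex.I) =
      Complex.exp ((k * (2 * π * Complex.I)) * x) := by
    intro x
    congr 1
    push_cast
    ring
  have h3 : (k * (2 * π * Complex.I) : ℂ) ≠ 0 := by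
    refine mul_ne_zero (by exact_mod_cast hk) Complex.two_pi_I_ne_zero
  rw [h1, intervalIntegral.integral_const_mul]
  simp only [h2]
  rw [integral_exp_mul_complex h3]
  have h4 : Complex.exp (k * (2 * π * Complex.I) * ((1 : ℝ) : ℂ)) = 1 := by
    rw [Complex.ofReal_one, mul_one]
    exact Complex.exp_int_mul_two_pi_mul_I k
  rw [h4]
  simp

theorem int_prod (a b : ℂ) (k l : ℤ) (h : k + l ≠ 0) :
    ∫ x in (0 : ℝ)..1, (a * Complex.exp (((2 * π * (k * x) : ℝ) : ℂ) * Complex.I)).re *
      (b * Complex.exp (((2 * π * (l * x) : ℝ) : ℂ) * Complex.I)).re =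
      if k = l then (1 / 2) * (a * (starRingEnd ℂ) b).re else 0 := by
  have h1 : ∀ x : ℝ, (a * Complex.exp (((2 * π * (k * x) : ℝ) : ℂ) * Complex.I)).re *
      (b * Complex.exp (((2 * π * (l * x) : ℝ) : ℂ) * Complex.I)).re =
      (1 / 2) * (a * b * Complex.exp (((2 * π * ((k + l : ℤ) * x) : ℝ) : ℂ) * Complex.I)).re +
      (1 / 2) * (a * (starRingEnd ℂ) b *
        Complex.exp (((2 * π * ((k - l : ℤ) * x) : ℝ) : ℂ) * Complex.I)).re := by
    intro x
    have e1 : Complex.exp (((2 * π * ((k + l : ℤ) * x) : ℝ) : ℂ) * Complex.I) =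
        Complex.exp (((2 * π * (k * x) : ℝ) : ℂ) * Complex.I) *
        Complex.exp (((2 * π * (l * x) : ℝ) : ℂ) * Complex.I) := by
      rw [← Complex.exp_add]
      congr 1
      push_cast
      ring
    have e2 : Complex.exp (((2 * π * ((k - l : ℤ) * x) : ℝ) : ℂ) * Complex.I) =
        Complex.exp (((2 * π * (k * x) : ℝ) : ℂ) * Complex.I) *
        (starRingEnd ℂ) (Complex.exp (((2 * π * (l * x) : ℝ) : ℂ) * Complex.I)) := by
      rw [← Complex.exp_conj, ← Complex.exp_add]
      congr 1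
      rw [map_mul, Complex.conj_ofReal, Complex.conj_I]
      push_cast
      ring
    rw [e1, e2]
    generalize Complex.exp (((2 * π * (k * x) : ℝ) : ℂ) * Complex.I) = z
    generalize Complex.exp (((2 * π * (l * x) : ℝ) : ℂ) * Complex.I) = w
    simp only [Complex.mul_re, Complex.mul_im, Complex.conj_re, Complex.conj_im]
    ring
  simp only [h1]
  rw [intervalIntegral.integral_add (Continuous.intervalIntegrable (by
      exact continuous_const.mul (Complex.continuous_re.comp (by fun_prop))) _ _)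
    (Continuous.intervalIntegrable (by
      exact continuous_const.mul (Complex.continuous_re.comp (by fun_prop))) _ _),
    intervalIntegral.integral_const_mul, intervalIntegral.integral_const_mul, int_e _ _ h]
  by_cases hkl : k = l
  · rw [if_pos hkl, hkl]
    simp
  · rw [if_neg hkl, int_e _ _ (sub_ne_zero.2 hkl)]
    simp

theorem mem_blk {N q n : ℕ} (h : n ∈ blk N q) : 1 ≤ n ∧ n ≤ N ∧ sf n = q := by
  unfold blk at h
  rw [Finset.mem_filter, Finset.mem_Icc] at h
  exact ⟨h.1.1, h.1.2, h.2⟩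

theorem rt_pos {n : ℕ} (h : 1 ≤ n) : 1 ≤ rt n := by
  rcases Nat.eq_zero_or_pos (rt n) with h0 | h0
  · have := rt_sf n
    rw [h0] at this
    omega
  · exact h0

theorem rt_inj {N q n m : ℕ} (hn : n ∈ blk N q) (hm : m ∈ blk N q) (h : rt n = rt m) : n = m := by
  rw [← rt_sf n, ← rt_sf m, h, (mem_blk hn).2.2, (mem_blk hm).2.2]

theorem int_yq (c : ℕ → ℂ) (N q : ℕ) : ∫ x in (0 : ℝ)..1, Yq c N q x = 0 := by
  unfold Yq
  rw [intervalIntegral.integral_finsetSum]
  · refine Finset.sum_eq_zero fun n hn => ?_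
    have := rt_pos (mem_blk hn).1
    have h := int_e (c n) (rt n : ℤ) (by exact_mod_cast (by omega : rt n ≠ 0))
    simpa using h
  · intro n _
    exact Continuous.intervalIntegrable (Complex.continuous_re.comp (by fun_prop)) _ _

theorem int_yq_sq (c : ℕ → ℂ) (N q : ℕ) : ∫ x in (0 : ℝ)..1, Yq c N q x ^ 2 = vq c N q := by
  have h1 : ∀ x, Yq c N q x ^ 2 = ∑ n ∈ blk N q, ∑ m ∈ blk N q,
      (c n * Complex.exp (((2 * π * ((rt n : ℤ) * x) : ℝ) : ℂ) * Complex.I)).re *
      (c m * Complex.exp (((2 * π * ((rt m : ℤ) * x) : ℝ) : ℂ) * Complex.I)).re := by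
    intro x
    unfold Yq
    rw [sq, Finset.sum_mul_sum]
    simp
  simp only [h1]
  have hc : ∀ n m : ℕ, Continuous fun x : ℝ =>
      (c n * Complex.exp (((2 * π * ((rt n : ℤ) * x) : ℝ) : ℂ) * Complex.I)).re *
      (c m * Complex.exp (((2 * π * ((rt m : ℤ) * x) : ℝ) : ℂ) * Complex.I)).re := by
    intro n m
    exact (Complex.continuous_re.comp (by fun_prop)).mul (Complex.continuous_re.comp (by fun_prop))
  rw [intervalIntegral.integral_finsetSum fun n _ =>
    Continuous.intervalIntegrable (continuous_finsetSum _ fun m _ => hc n m) _ _]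
  unfold vq
  rw [Finset.mul_sum]
  refine Finset.sum_congr rfl fun n hn => ?_
  rw [intervalIntegral.integral_finsetSum fun m _ => Continuous.intervalIntegrable (hc n m) _ _]
  have hn1 := rt_pos (mem_blk hn).1
  rw [Finset.sum_eq_single n]
  · rw [int_prod _ _ _ _ (by omega), if_pos rfl, Complex.mul_conj, Complex.ofReal_re, Complex.normSq_eq_norm_sq]
  · intro m hm hmn
    rw [int_prod _ _ _ _ (by omega), if_neg]
    intro h
    exact hmn (rt_inj hn hm (by exact_mod_cast h)).symm
  · intro h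
    exact absurd hn h

theorem u01_int {E : Type*} [NormedAddCommGroup E] [NormedSpace ℝ E] (f : ℝ → E) :
    ∫ x, f x ∂u01 = ∫ x in (0 : ℝ)..1, f x := by
  rw [intervalIntegral.integral_of_le zero_le_one]
  rfl

theorem Th_int {E : Type*} [NormedAddCommGroup E] [NormedSpace ℝ E] (f : ℝ → E) (hf : StronglyMeasurable f)
    (q : ℕ) : ∫ θ, f (θ q) ∂Th = ∫ x in (0 : ℝ)..1, f x := by
  rw [← u01_int]
  have h := measurePreserving_eval_infinitePi (fun _ : ℕ => u01) q
  have h2 := integral_map (μ := Th) (φ := Function.eval q) (f := f) (measurable_pi_apply q).aemeasurable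
    hf.aestronglyMeasurable
  have h3 : Measure.map (Function.eval q) Th = u01 := h.map_eq
  rw [h3] at h2
  exact h2.symm

theorem vq_sum (c : ℕ → ℂ) (N : ℕ) : ∑ q ∈ Finset.Icc 1 N, vq c N q = V c N := by
  unfold vq V blk
  rw [← Finset.mul_sum, Finset.sum_fiberwise_of_maps_to]
  intro n hn
  rw [Finset.mem_Icc] at hn ⊢
  have h := rt_sf n
  have h1 := rt_pos hn.1
  constructor
  · rcases Nat.eq_zero_or_pos (sf n) with h0 | h0
    · rw [h0] at h; omega
    · exact h0
  · have : sf n ∣ n := ⟨rt n ^ 2, by rw [mul_comm]; exact h.symm⟩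
    exact (Nat.le_of_dvd (by omega) this).trans hn.2

theorem t_FOUR : S_FOUR := by
  intro c N
  have hYm : ∀ q, Measurable (Yq c N q) := fun q => (yq_cont c N q).measurable
  have hm : ∀ q, Measurable fun θ : ℕ → ℝ => Yq c N q (θ q) := fun q =>
    (hYm q).comp (measurable_pi_apply q)
  have hmY : Measurable (Y c N) := by
    unfold Y
    exact Finset.measurable_sum _ fun q _ => hm q
  have hind : iIndepFun (fun q (θ : ℕ → ℝ) => Yq c N q (θ q)) Th := by
    unfold Th
    exact iIndepFun_infinitePi (X := fun q x => Yq c N q x) hYm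
  refine ⟨hmY, ?_, ?_⟩
  · have hg : ∀ q : ℕ, Measurable fun x : ℝ => Complex.exp (((Yq c N q x : ℝ) : ℂ) * Complex.I) := by
      intro q
      exact (Complex.continuous_exp.comp ((Complex.continuous_ofReal.comp (yq_cont c N q)).mul
        continuous_const)).measurable
    have hindc : iIndepFun (fun (q : (Finset.Icc 1 N : Finset ℕ)) (θ : ℕ → ℝ) => Complex.exp (((Yq c N q (θ q) : ℝ) : ℂ) * Complex.I))
        Th := by
      have h0 : iIndepFun (fun (q : ℕ) (θ : ℕ → ℝ) => Complex.exp (((Yq c N q (θ q) : ℝ) : ℂ) * Complex.I))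
        Th := by
        unfold Th
        exact iIndepFun_infinitePi (X := fun q x => Complex.exp (((Yq c N q x : ℝ) : ℂ) * Complex.I)) hg
      exact h0.precomp Subtype.val_injective
    have h1 := hindc.integral_fun_prod_eq_prod_integral fun q =>
      ((hg q).comp (measurable_pi_apply (q : ℕ))).aestronglyMeasurable
    have h2 : ∀ θ : ℕ → ℝ, Complex.exp (((Y c N θ : ℝ) : ℂ) * Complex.I) =
        ∏ q : (Finset.Icc 1 N : Finset ℕ), Complex.exp (((Yq c N q (θ q) : ℝ) : ℂ) * Complex.I) := by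
      intro θ
      rw [← Complex.exp_sum, ← Finset.sum_mul]
      congr 2
      unfold Y
      rw [Complex.ofReal_sum]
      exact (Finset.sum_coe_sort (Finset.Icc 1 N) fun q => ((Yq c N q (θ q) : ℝ) : ℂ)).symm
    simp only [h2]
    rw [h1, ← Finset.prod_coe_sort (Finset.Icc 1 N)]
    refine Finset.prod_congr rfl fun q _ => ?_
    exact Th_int _ (hg q).stronglyMeasurable q
  · have h := sum_moments Th (fun q (θ : ℕ → ℝ) => Yq c N q (θ q)) hm hind (bq c N) (vq c N)
      (fun q θ => yq_le c N q (θ q)) (Finset.Icc 1 N)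
      (fun q _ => by rw [Th_int _ (hYm q).stronglyMeasurable q, int_yq])
      (fun q _ => by
        have := Th_int (fun x => Yq c N q x ^ 2) ((hYm q).pow_const 2).stronglyMeasurable q
        rw [this, int_yq_sq])
    have h4 := h.2.2
    rw [vq_sum] at h4
    exact h4

end Pool.Agent.U603.LB
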